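import Pool.Agent.Helper12.NK.St
import Pool.Agent.Helper51.AJ.Basic

/-! # Project NK (MP_d63854_co), module STB: `G - u - v` is planar for every edge `u v` -/

set_option autoImplicit false

namespace Pool.Agent.Helper79.NK

open Pool.Agent.Helper12.NK
open Pool.Agent.Helper51.AJ (IsMinor Planar Apex ExMinor Con Tch con_singleton tch_symm tch_mono)

/-- how to use CRX -/
theorem crx_use (hCRX : StCRX) {V : Type} (H : SimpleGraph V) (m : ℕ) (hm : 3 ≤ m) (c : ZMod m → V)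
    (S : ZMod m → Set V) (u v : V) (A B : Set V) (hA : A ⊆ Set.range c) (_hB : B ⊆ Set.range c)
    (hS1 : ∀ i, Con H (S i)) (hS2 : ∀ i j, i ≠ j → Disjoint (S i) (S j))
    (hS3 : ∀ i, Tch H (S i) (S (i + 1))) (hu : ∀ i, u ∉ S i) (hv : ∀ i, v ∉ S i)
    (huv : H.Adj u v) (hAu : ∀ i, c i ∈ A → Tch H {u} (S i)) (hBv : ∀ i, c i ∈ B → Tch H {v} (S i))
    (hcr : Crs m c A B) : ¬ Planar H := by
  have hcr' : Crs m (fun i : ZMod m => i) {i | c i ∈ A} {i | c i ∈ B} := by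
    rcases hcr with ⟨i, r, s, t, h1, h2, h3, h4, h5, h6, h7, h8⟩ |
      ⟨x, y, z, hxy, hyz, hxz, hx, hx', hy, hy', hz, hz'⟩
    · exact Or.inl ⟨i, r, s, t, h1, h2, h3, h4, h5, h6, h7, h8⟩
    · obtain ⟨i, rfl⟩ := hA hx
      obtain ⟨j, rfl⟩ := hA hy
      obtain ⟨k, rfl⟩ := hA hz
      exact Or.inr ⟨i, j, k, fun h => hxy (by rw [h]), fun h => hyz (by rw [h]),
        fun h => hxz (by rw [h]), hx, hx', hy, hy', hz, hz'⟩
  refine (hCRX V H m S {u} {v} _ _ hm hS1 hS2 hS3 (con_singleton H u) (con_singleton H v) ?_ ?_ ?_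
    (fun i hi => hAu i hi) (fun i hi => hBv i hi) hcr').1 ⟨u, rfl, v, rfl, huv⟩
  · exact Set.disjoint_singleton.2 (H.ne_of_adj huv)
  · intro i
    exact Set.disjoint_singleton_left.2 (hu i)
  · intro i
    exact Set.disjoint_singleton_left.2 (hv i)

/-- a vertex of a peripheral cycle of a 3-connected graph has a neighbour outside the cycle -/
theorem nbr_out (hKCA : StKCA) {V : Type} [Finite V] {G : SimpleGraph V} {U : Set V} (hK : Kc 3 G U)
    {m : ℕ} {c : ZMod m → V} (hc : Pcy G U m c) (j : ZMod m) :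
    ∃ b ∈ U \ Set.range c, G.Adj (c j) b := by
  by_contra hno
  push Not at hno
  have h3 := (hKCA V G U).2.2.1 3 hK (c j) (hc.2.2.1 ⟨j, rfl⟩)
  have hsub : {b | b ∈ U ∧ G.Adj (c j) b} ⊆ {c (j + 1), c (j - 1)} := by
    rintro b ⟨hb, hab⟩
    by_cases hr : b ∈ Set.range c
    · obtain ⟨i, rfl⟩ := hr
      rcases (hc.2.2.2.1 j i).1 hab with h | h
      · left
        rw [h]
      · right
        rw [h, add_sub_cancel_right]
        rfl
    · exact absurd hab (hno b ⟨hb, hr⟩)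
  have h4 := (Set.ncard_le_ncard hsub (Set.toFinite _)).trans (Set.ncard_insert_le _ _)
  rw [Set.ncard_singleton] at h4
  omega

theorem hSTB : StKCA → StHCN → StTUT → StCMB → StCMC → StCRX → StSTA → StSTB := by
  classical
  intro hKCA hHCN hTUT hCMB hCMC hCRX hSTA V _ G hHyp hHN hHD hHK u v huv
  by_contra hnp
  obtain ⟨hc1, hc2, hc3, hc4, hc5⟩ := hHCN V G hHyp
  rcases hHK u v huv with h | ⟨y, hyu, hyv, hP⟩
  · exact hnp h
  obtain ⟨U, hU⟩ : ∃ U : Set V, U = {u, v, y}ᶜ := ⟨_, rfl⟩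
  obtain ⟨A, hAdef⟩ : ∃ A : Set V, A = {b | b ∈ U ∧ G.Adj u b} := ⟨_, rfl⟩
  obtain ⟨B, hBdef⟩ : ∃ B : Set V, B = {b | b ∈ U ∧ G.Adj v b} := ⟨_, rfl⟩
  have hmU : ∀ x, x ∈ U ↔ x ≠ u ∧ x ≠ v ∧ x ≠ y := by
    intro x
    rw [hU]
    simp
  have hmA : ∀ x, x ∈ A ↔ (x ≠ u ∧ x ≠ v ∧ x ≠ y) ∧ G.Adj u x := by
    intro x
    rw [hAdef, Set.mem_ofPred_eq, hmU]
  have hmB : ∀ x, x ∈ B ↔ (x ≠ u ∧ x ≠ v ∧ x ≠ y) ∧ G.Adj v x := by
    intro x
    rw [hBdef, Set.mem_ofPred_eq, hmU]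
  have hNe : {b | (G.Adj u b ∨ G.Adj v b) ∧ b ≠ u ∧ b ≠ v ∧ b ≠ y} = A ∪ B := by
    ext x
    rw [Set.mem_ofPred_eq, Set.mem_union, hmA, hmB]
    tauto
  have hAU : A ⊆ U := fun x hx => (hmU x).2 ((hmA x).1 hx).1
  have hBU : B ⊆ U := fun x hx => (hmU x).2 ((hmB x).1 hx).1
  have hKU : Kc 3 G U := by
    rw [hU]
    exact hc2 u v y huv
  -- sizes
  have hcA : {b | G.Adj u b}.ncard ≤ A.ncard + 2 := by
    have h1 : {b | G.Adj u b} ⊆ insert v (insert y A) := by
      intro x hx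
      by_cases h1 : x = v
      · exact Or.inl h1
      by_cases h2 : x = y
      · exact Or.inr (Or.inl h2)
      exact Or.inr (Or.inr ((hmA x).2 ⟨⟨(G.ne_of_adj hx).symm, h1, h2⟩, hx⟩))
    have h2 := Set.ncard_le_ncard h1 (Set.toFinite _)
    have h3 := Set.ncard_insert_le v (insert y A)
    have h4 := Set.ncard_insert_le y A
    omega
  have hcB : {b | G.Adj v b}.ncard ≤ B.ncard + 2 := by
    have h1 : {b | G.Adj v b} ⊆ insert u (insert y B) := by
      intro x hx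
      by_cases h1 : x = u
      · exact Or.inl h1
      by_cases h2 : x = y
      · exact Or.inr (Or.inl h2)
      exact Or.inr (Or.inr ((hmB x).2 ⟨⟨h1, (G.ne_of_adj hx).symm, h2⟩, hx⟩))
    have h2 := Set.ncard_le_ncard h1 (Set.toFinite _)
    have h3 := Set.ncard_insert_le u (insert y B)
    have h4 := Set.ncard_insert_le y B
    omega
  have hu5 := hc4 u
  have hv5 := hc4 v
  have hsz : (4 ≤ A.ncard ∧ 4 ≤ B.ncard) ∨ (3 ≤ A.ncard ∧ 3 ≤ B.ncard ∧ Disjoint A B) := by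
    by_cases hu6 : {b | G.Adj u b}.ncard = 5
    · right
      refine ⟨by omega, by omega, Set.disjoint_left.2 fun x hxA hxB => ?_⟩
      exact hc5 u hu6 v x huv ((hmA x).1 hxA).2 ((hmB x).1 hxB).2
    by_cases hv6 : {b | G.Adj v b}.ncard = 5
    · right
      refine ⟨by omega, by omega, Set.disjoint_left.2 fun x hxA hxB => ?_⟩
      exact hc5 v hv6 u x huv.symm ((hmB x).1 hxB).2 ((hmA x).1 hxA).2
    · left
      omega
  have hA3 : 3 ≤ A.ncard := by omega
  rw [hNe, ← hU] at hP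
  have huU : u ∉ U := fun h => ((hmU u).1 h).1 rfl
  have hvU : v ∉ U := fun h => ((hmU v).1 h).2.1 rfl
  have hyU : y ∉ U := fun h => ((hmU y).1 h).2.2 rfl
  obtain ⟨m, c, hPc, hNc, hlast⟩ := hTUT V G U (A ∪ B) u hKU (Set.union_subset hAU hBU)
    (hA3.trans (Set.ncard_le_ncard Set.subset_union_left (Set.toFinite _))) huU hP
  have hAc : A ⊆ Set.range c := Set.subset_union_left.trans hNc
  have hBc : B ⊆ Set.range c := Set.subset_union_right.trans hNc
  obtain ⟨hm, hinj, hcU, hcadj, hccon⟩ := id hPc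
  have huv' : u ≠ v := G.ne_of_adj huv
  have hcr : Crs m c A B := by
    rcases hCMB V m c A B hm hinj hAc hBc with hN | hC
    · exfalso
      have h1 := hlast A B hAc hBc hN u v huU hvU huv'
      refine hHN y ((hKCA V G U).2.2.2.2.2.1 _ _ ?_ h1)
      intro a b hab
      obtain ⟨hab, ha, hb⟩ := hab
      have hay : a ≠ y := ha
      have hby : b ≠ y := hb
      by_cases hau : a = u
      · subst hau
        by_cases hbv : b = v
        · subst hbv
          exact Or.inr (Or.inr ⟨rfl, Set.mem_insert _ _, huv'⟩)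
        · have hbu : b ≠ a := (G.ne_of_adj hab).symm
          exact Or.inl (Or.inr (Or.inl ⟨rfl, (hmA b).2 ⟨⟨hbu, hbv, hby⟩, hab⟩, hbu⟩))
      by_cases hav : a = v
      · subst hav
        by_cases hbu : b = u
        · subst hbu
          exact Or.inr (Or.inl ⟨rfl, Set.mem_insert _ _, huv'⟩)
        · have hba : b ≠ a := (G.ne_of_adj hab).symm
          exact Or.inr (Or.inl ⟨rfl, Set.mem_insert_of_mem _
            ((hmB b).2 ⟨⟨hbu, hba, hby⟩, hab⟩), hba⟩)
      by_cases hbu : b = u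
      · subst hbu
        exact Or.inl (Or.inr (Or.inr ⟨rfl, (hmA a).2 ⟨⟨hau, hav, hay⟩, hab.symm⟩, hau⟩))
      by_cases hbv : b = v
      · subst hbv
        exact Or.inr (Or.inr ⟨rfl, Set.mem_insert_of_mem _
          ((hmB a).2 ⟨⟨hau, hav, hay⟩, hab.symm⟩), hav⟩)
      exact Or.inl (Or.inl ⟨hab, (hmU a).2 ⟨hau, hav, hay⟩, (hmU b).2 ⟨hbu, hbv, hby⟩⟩)
    · exact hC
  -- the claim
  have hclaim : ∀ z ∈ PiS G y, z ≠ u → z ≠ v →
      z ∈ {z | z ∈ Set.range c ∧ ¬ Crs m c (A \ {z}) (B \ {z})} := by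
    rintro z ⟨hzy, hzP⟩ hzu hzv
    have hmH : ∀ a b, (rst G {z, y}ᶜ).Adj a b ↔ G.Adj a b ∧ (a ≠ z ∧ a ≠ y) ∧ (b ≠ z ∧ b ≠ y) := by
      intro a b
      show (G.Adj a b ∧ a ∈ ({z, y}ᶜ : Set V) ∧ b ∈ ({z, y}ᶜ : Set V)) ↔ _
      simp
    have hcy : ∀ i, c i ≠ y := fun i => ((hmU _).1 (hcU ⟨i, rfl⟩)).2.2
    have hcu : ∀ i, c i ≠ u := fun i => ((hmU _).1 (hcU ⟨i, rfl⟩)).1
    have hcv : ∀ i, c i ≠ v := fun i => ((hmU _).1 (hcU ⟨i, rfl⟩)).2.1
    have huvH : (rst G {z, y}ᶜ).Adj u v :=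
      (hmH _ _).2 ⟨huv, ⟨hzu.symm, hyu.symm⟩, ⟨hzv.symm, hyv.symm⟩⟩
    by_cases hz : z ∈ Set.range c
    · refine ⟨hz, fun hC => ?_⟩
      obtain ⟨i₀, hi₀⟩ := hz
      have hci : ∀ i, i ≠ i₀ → c i ≠ z := fun i hi h => hi (hinj (h.trans hi₀.symm))
      have hne1 : ∀ i : ZMod m, i + 1 ≠ i := by
        intro i h
        have h1 : ((1 : ℕ) : ZMod m) = 0 := by
          rw [Nat.cast_one]
          exact (add_eq_left (a := i)).1 h
        rw [ZMod.natCast_eq_zero_iff] at h1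
        have := Nat.le_of_dvd one_pos h1
        omega
      refine crx_use hCRX (rst G {z, y}ᶜ) m hm c
        (fun i => if i = i₀ then U \ Set.range c else {c i}) u v (A \ {z}) (B \ {z})
        (Set.sdiff_subset.trans hAc) (Set.sdiff_subset.trans hBc) ?_ ?_ ?_ ?_ ?_ huvH ?_ ?_ hC hzP
      · intro i
        by_cases hi : i = i₀
        · rw [if_pos hi]
          refine ((hKCA V G {z, y}ᶜ).2.2.2.1 _ ?_).1 hccon
          rintro x ⟨hxU, hxr⟩
          have h1 := ((hmU x).1 hxU).2.2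
          have h2 : x ≠ z := by
            rintro rfl
            exact hxr ⟨i₀, hi₀⟩
          simp [h1, h2]
        · rw [if_neg hi]
          exact con_singleton _ _
      · intro i j hij
        by_cases hi : i = i₀
        · have hj : j ≠ i₀ := fun h => hij (hi.trans h.symm)
          rw [if_pos hi, if_neg hj]
          exact Set.disjoint_singleton_right.2 fun h => h.2 ⟨j, rfl⟩
        · rw [if_neg hi]
          by_cases hj : j = i₀
          · rw [if_pos hj]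
            exact Set.disjoint_singleton_left.2 fun h => h.2 ⟨i, rfl⟩
          · rw [if_neg hj]
            exact Set.disjoint_singleton.2 (hinj.ne hij)
      · intro i
        by_cases hi : i = i₀
        · have hj : i + 1 ≠ i₀ := by
            rw [← hi]
            exact hne1 i
          rw [if_pos hi, if_neg hj]
          obtain ⟨b, hb, hab⟩ := nbr_out hKCA hKU hPc (i + 1)
          refine ⟨b, hb, c (i + 1), rfl, (hmH _ _).2 ⟨hab.symm, ⟨?_, ?_⟩, hci _ hj, hcy _⟩⟩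
          · rintro rfl
            exact hb.2 ⟨i₀, hi₀⟩
          · exact ((hmU b).1 hb.1).2.2
        · rw [if_neg hi]
          by_cases hj : i + 1 = i₀
          · rw [if_pos hj]
            obtain ⟨b, hb, hab⟩ := nbr_out hKCA hKU hPc i
            refine ⟨c i, rfl, b, hb, (hmH _ _).2 ⟨hab, ⟨hci _ hi, hcy _⟩, ?_, ?_⟩⟩
            · rintro rfl
              exact hb.2 ⟨i₀, hi₀⟩
            · exact ((hmU b).1 hb.1).2.2
          · rw [if_neg hj]
            exact ⟨c i, rfl, c (i + 1), rfl, (hmH _ _).2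
              ⟨(hcadj _ _).2 (Or.inl rfl), ⟨hci _ hi, hcy _⟩, hci _ hj, hcy _⟩⟩
      · intro i
        by_cases hi : i = i₀
        · rw [if_pos hi]
          exact fun h => huU h.1
        · rw [if_neg hi]
          exact fun h => hcu i (Set.mem_singleton_iff.1 h).symm
      · intro i
        by_cases hi : i = i₀
        · rw [if_pos hi]
          exact fun h => hvU h.1
        · rw [if_neg hi]
          exact fun h => hcv i (Set.mem_singleton_iff.1 h).symm
      · rintro i ⟨hiA, hiz⟩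
        have hi : i ≠ i₀ := by
          rintro rfl
          exact hiz hi₀
        rw [if_neg hi]
        exact ⟨u, rfl, c i, rfl, (hmH _ _).2 ⟨((hmA _).1 hiA).2, ⟨hzu.symm, hyu.symm⟩, hiz, hcy _⟩⟩
      · rintro i ⟨hiB, hiz⟩
        have hi : i ≠ i₀ := by
          rintro rfl
          exact hiz hi₀
        rw [if_neg hi]
        exact ⟨v, rfl, c i, rfl, (hmH _ _).2 ⟨((hmB _).1 hiB).2, ⟨hzv.symm, hyv.symm⟩, hiz, hcy _⟩⟩
    · exfalso
      have hcz : ∀ i, c i ≠ z := fun i h => hz ⟨i, h⟩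
      refine crx_use hCRX (rst G {z, y}ᶜ) m hm c (fun i => {c i}) u v A B hAc hBc
        (fun i => con_singleton _ _) (fun i j hij => Set.disjoint_singleton.2 (hinj.ne hij)) ?_
        (fun i h => hcu i (Set.mem_singleton_iff.1 h).symm)
        (fun i h => hcv i (Set.mem_singleton_iff.1 h).symm) huvH ?_ ?_ hcr hzP
      · intro i
        exact ⟨c i, rfl, c (i + 1), rfl, (hmH _ _).2
          ⟨(hcadj _ _).2 (Or.inl rfl), ⟨hcz _, hcy _⟩, hcz _, hcy _⟩⟩
      · intro i hi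
        exact ⟨u, rfl, c i, rfl, (hmH _ _).2
          ⟨((hmA _).1 hi).2, ⟨hzu.symm, hyu.symm⟩, hcz _, hcy _⟩⟩
      · intro i hi
        exact ⟨v, rfl, c i, rfl, (hmH _ _).2
          ⟨((hmB _).1 hi).2, ⟨hzv.symm, hyv.symm⟩, hcz _, hcy _⟩⟩
  have hZ := hCMC V m c A B hm hinj hAc hBc hsz hcr
  have hsub : PiS G y ⊆ insert u (insert v
      {z | z ∈ Set.range c ∧ ¬ Crs m c (A \ {z}) (B \ {z})}) := by
    intro z hz
    by_cases hzu : z = u
    · exact Or.inl hzu
    by_cases hzv : z = v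
    · exact Or.inr (Or.inl hzv)
    exact Or.inr (Or.inr (hclaim z hz hzu hzv))
  have h1 := Set.ncard_le_ncard hsub (Set.toFinite _)
  have h2 := Set.ncard_insert_le u (insert v
      {z | z ∈ Set.range c ∧ ¬ Crs m c (A \ {z}) (B \ {z})})
  have h3 := Set.ncard_insert_le v {z | z ∈ Set.range c ∧ ¬ Crs m c (A \ {z}) (B \ {z})}
  have h4 := hSTA V G hHyp hHN hHD y
  have h5 := hc4 y
  omega

end Pool.Agent.Helper79.NK
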